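import Pool.Agent.Helper16.Cc.Grp
import Pool.Agent.Helper59.Cc.Gex

/-! # The cyclic space of a vector for functions of rank one perturbations (not a result) -/

set_option autoImplicit false

open MeasureTheory Filter Topology Polynomial
open scoped ENNReal NNReal ComplexConjugate InnerProductSpace

namespace Pool.Agent.Helper88.Cc

open Pool.Agent.H5R2.NB Pool.Agent.Helper26.Rg Pool.Agent.Helper26.Cc
open Pool.Agent.TH369.AN (Rz pt ro cp fc pt_sa)

section gen

variable {X : Type} [NormedAddCommGroup X] [InnerProductSpace ℂ X] [CompleteSpace X]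

/-- functions of two operators which agree on an invariant closed subspace -/
theorem cfc_agree {K : Submodule ℂ X} (hK : IsClosed (K : Set X))
    {A A' : X →L[ℂ] X} (hA : IsSelfAdjoint A) (hA' : IsSelfAdjoint A')
    (h : ∀ x ∈ K, A x ∈ K ∧ A' x = A x) {F : ℝ → ℝ} (hF : Continuous F) :
    ∀ x ∈ K, fc F A x ∈ K ∧ fc F A' x = fc F A x := by
  -- polynomials
  have hpol : ∀ p : ℝ[X], ∀ x ∈ K, aeval A p x ∈ K ∧ aeval A' p x = aeval A p x := by
    intro p
    induction p using Polynomial.induction_on' with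
    | add p q hp hq =>
      intro x hx
      rw [map_add, map_add]
      exact ⟨K.add_mem (hp x hx).1 (hq x hx).1, by
        rw [add_apply, add_apply, (hp x hx).2, (hq x hx).2]⟩
    | monomial n a =>
      intro x hx
      have hpow : ∀ n : ℕ, (A ^ n) x ∈ K ∧ (A' ^ n) x = (A ^ n) x := by
        intro n
        induction n with
        | zero => exact ⟨hx, rfl⟩
        | succ n ih =>
          rw [pow_succ', pow_succ']
          refine ⟨(h _ ih.1).1, ?_⟩
          change A' ((A' ^ n) x) = A ((A ^ n) x)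
          rw [ih.2]
          exact (h _ ih.1).2
      rw [aeval_monomial, aeval_monomial]
      have e1 : ∀ B : X →L[ℂ] X, ((algebraMap ℝ (X →L[ℂ] X) a) * B ^ n) x =
          (a : ℂ) • (B ^ n) x := by
        intro B
        rw [Algebra.algebraMap_eq_smul_one, smul_mul_assoc, one_mul]
        exact (Complex.coe_smul a ((B ^ n) x)).symm
      rw [e1, e1]
      exact ⟨K.smul_mem _ (hpow n).1, by rw [(hpow n).2]⟩
  -- approximation
  obtain ⟨R, hR⟩ : ∃ R : ℝ, ∀ B ∈ ({A, A'} : Set (X →L[ℂ] X)), ∀ z ∈ spectrum ℝ B,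
      z ∈ Set.Icc (-R) R := by
    refine ⟨max ‖A‖ ‖A'‖, ?_⟩
    intro B hB z hz
    have h1 := spectrum.norm_le_norm_mul_of_mem hz
    have h2 : ‖(1 : X →L[ℂ] X)‖ ≤ 1 := ContinuousLinearMap.norm_id_le
    have h3 : ‖B‖ ≤ max ‖A‖ ‖A'‖ := by
      rcases hB with rfl | hB
      · exact le_max_left _ _
      · rw [Set.mem_singleton_iff.1 hB]
        exact le_max_right _ _
    have h4 : |z| ≤ max ‖A‖ ‖A'‖ := by
      rw [← Real.norm_eq_abs]
      calc ‖z‖ ≤ ‖B‖ * ‖(1 : X →L[ℂ] X)‖ := h1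
        _ ≤ ‖B‖ * 1 := mul_le_mul_of_nonneg_left h2 (norm_nonneg _)
        _ ≤ max ‖A‖ ‖A'‖ := by rw [mul_one]; exact h3
    exact abs_le.1 h4
  have happ : ∀ n : ℕ, ∃ p : ℝ[X], ∀ B ∈ ({A, A'} : Set (X →L[ℂ] X)), IsSelfAdjoint B →
      ‖aeval B p - fc F B‖ ≤ 1 / ((n : ℝ) + 1) := by
    intro n
    obtain ⟨p, hp⟩ := exists_polynomial_near_of_continuousOn (-R) R F hF.continuousOn
      (1 / ((n : ℝ) + 1)) (by positivity)
    refine ⟨p, fun B hB hBs => ?_⟩
    unfold fc
    rw [← cfc_polynomial p B hBs, ← cfc_sub p.eval F B p.continuous.continuousOn hF.continuousOn]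
    refine norm_cfc_le (by positivity) fun z hz => ?_
    rw [Real.norm_eq_abs]
    exact (hp z (hR B hB z hz)).le
  choose p hp using happ
  have hlim : ∀ B ∈ ({A, A'} : Set (X →L[ℂ] X)), IsSelfAdjoint B → ∀ x,
      Tendsto (fun n => aeval B (p n) x) atTop (𝓝 (fc F B x)) := by
    intro B hB hBs x
    have h1 : Tendsto (fun n => aeval B (p n)) atTop (𝓝 (fc F B)) := by
      rw [tendsto_iff_norm_sub_tendsto_zero]
      exact squeeze_zero (fun n => norm_nonneg _) (fun n => hp n B hB hBs)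
        tendsto_one_div_add_atTop_nhds_zero_nat
    exact (ContinuousLinearMap.apply ℂ X x).continuous.continuousAt.tendsto.comp h1
  intro x hx
  have h1 := hlim A (Set.mem_insert _ _) hA x
  have h2 := hlim A' (Set.mem_insert_of_mem _ rfl) hA' x
  refine ⟨hK.mem_of_tendsto h1 (Eventually.of_forall fun n => (hpol (p n) x hx).1), ?_⟩
  refine tendsto_nhds_unique h2 (h1.congr fun n => ?_)
  exact ((hpol (p n) x hx).2).symm

/-- the vectors orthogonal to the powers -/
def NN (S : X →L[ℂ] X) (e : X) : Submodule ℂ X where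
  carrier := {φ | ∀ n : ℕ, ⟪φ, (S ^ n) e⟫_ℂ = 0}
  add_mem' := fun {a b} ha hb n => by
    rw [inner_add_left, ha n, hb n, add_zero]
  zero_mem' := fun n => inner_zero_left _
  smul_mem' := fun c a ha n => by
    rw [inner_smul_left, ha n, mul_zero]

omit [CompleteSpace X] in
lemma NN_closed (S : X →L[ℂ] X) (e : X) : IsClosed (NN S e : Set X) := by
  have h1 : (NN S e : Set X) = ⋂ n : ℕ, {φ | ⟪φ, (S ^ n) e⟫_ℂ = 0} := by
    ext φ
    rw [Set.mem_iInter]
    exact Iff.rfl
  rw [h1]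
  refine isClosed_iInter fun t => ?_
  exact isClosed_eq (continuous_id.inner continuous_const) continuous_const

lemma sa_inner {S : X →L[ℂ] X} (hS : IsSelfAdjoint S) (x y : X) :
    ⟪S x, y⟫_ℂ = ⟪x, S y⟫_ℂ := by
  have h := ContinuousLinearMap.adjoint_inner_left S y x
  rw [← ContinuousLinearMap.star_eq_adjoint, hS.star_eq] at h
  exact h

/-- invariance -/
lemma NN_inv {S : X →L[ℂ] X} (hS : IsSelfAdjoint S) {e φ : X} (h : φ ∈ NN S e) :
    S φ ∈ NN S e := by
  intro n
  rw [sa_inner hS]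
  have h1 := h (n + 1)
  rwa [pow_succ'] at h1

/-- functions of `S` preserve the space, so the powers of a function are orthogonal -/
lemma NN_cfc {S : X →L[ℂ] X} (hS : IsSelfAdjoint S) {e φ : X} (h : φ ∈ NN S e)
    {F : ℝ → ℝ} (hF : Continuous F) : φ ∈ NN (fc F S) e := by
  have hinv : ∀ x ∈ NN S e, fc F S x ∈ NN S e := fun x hx =>
    (cfc_agree (NN_closed S e) hS hS (fun y hy => ⟨NN_inv hS hy, rfl⟩) hF x hx).1
  have hFs : IsSelfAdjoint (fc F S) := cfc_predicate F S
  have key : ∀ n : ℕ, ∀ x ∈ NN S e, ⟪x, ((fc F S) ^ n) e⟫_ℂ = 0 := by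
    intro n
    induction n with
    | zero =>
      intro x hx
      exact hx 0
    | succ n ih =>
      intro x hx
      rw [pow_succ']
      change ⟪x, fc F S (((fc F S) ^ n) e)⟫_ℂ = 0
      rw [← sa_inner hFs]
      exact ih _ (hinv x hx)
  exact fun n => key n φ h

omit [CompleteSpace X] in
/-- the rank one perturbation -/
lemma pt_apply (T : X →L[ℂ] X) (e : X) (κ : ℝ) (x : X) :
    pt T e κ x = T x + (κ : ℂ) • (⟪e, x⟫_ℂ • e) := rfl

omit [CompleteSpace X] in
lemma pt_on {T : X →L[ℂ] X} {e φ : X} (h : φ ∈ NN T e) (κ : ℝ) :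
    pt T e κ φ = T φ := by
  have h0 : ⟪e, φ⟫_ℂ = 0 := by
    have h1 : ⟪φ, e⟫_ℂ = 0 := h 0
    rw [← inner_conj_symm, h1, map_zero]
  rw [pt_apply, h0, zero_smul, smul_zero, add_zero]

lemma NN_pt {T : X →L[ℂ] X} (hT : IsSelfAdjoint T) {e φ : X} (h : φ ∈ NN T e) (κ : ℝ) :
    φ ∈ NN (pt T e κ) e := by
  have hs : IsSelfAdjoint (pt T e κ) := pt_sa T hT e κ
  have key : ∀ n : ℕ, ∀ x ∈ NN T e, ⟪x, ((pt T e κ) ^ n) e⟫_ℂ = 0 := by
    intro n
    induction n with
    | zero =>
      intro x hx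
      exact hx 0
    | succ n ih =>
      intro x hx
      rw [pow_succ']
      change ⟪x, pt T e κ (((pt T e κ) ^ n) e)⟫_ℂ = 0
      rw [← sa_inner hs, pt_on hx]
      exact ih _ (NN_inv hT hx)
  exact fun n => key n φ h

omit [CompleteSpace X] in
lemma pt_pt (T : X →L[ℂ] X) (e : X) (κ : ℝ) : pt (pt T e κ) e (-κ) = T := by
  ext1 x
  rw [pt_apply, pt_apply]
  push_cast
  rw [neg_smul]
  abel

lemma NN_pt_iff {T : X →L[ℂ] X} (hT : IsSelfAdjoint T) {e φ : X} (κ : ℝ) :
    φ ∈ NN (pt T e κ) e ↔ φ ∈ NN T e := by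
  refine ⟨fun h => ?_, fun h => NN_pt hT h κ⟩
  have h1 := NN_pt (pt_sa T hT e κ) h (-κ)
  rwa [pt_pt] at h1

lemma fc_sa (F : ℝ → ℝ) (S : X →L[ℂ] X) : IsSelfAdjoint (fc F S) := cfc_predicate F S

lemma fc_back {S : X →L[ℂ] X} (hS : IsSelfAdjoint S) {h f : ℝ → ℝ} (hf : ∀ x, f (h x) = x)
    (hhc : Continuous h) (hfc : Continuous f) : fc f (fc h S) = S := by
  unfold fc
  rw [← cfc_comp' f h S hfc.continuousOn hhc.continuousOn hS]
  have : (fun x => f (h x)) = fun x => x := funext hf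
  rw [this]
  exact cfc_id' ℝ S hS

end gen

variable {ι : Type}

/-- the cyclic space of a group and of its generator -/
theorem Kc_iff {W : UG (L2 ι)} {S : L2 ι →L[ℂ] L2 ι} (hW : Gen W S) (e φ : L2 ι) :
    φ ∈ Kc W e ↔ φ ∈ NN S e := by
  constructor
  · intro h
    have key : ∀ n : ℕ, ∀ t : ℝ, ⟪φ, W.U t ((S ^ n) e)⟫_ℂ = 0 := by
      intro n
      induction n with
      | zero => exact h
      | succ n ih =>
        intro t
        have h1 := Pool.Agent.Helper16.Cc.gen_norm hW ((S ^ n) e) t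
        have h2 : HasDerivAt (fun s : ℝ => ⟪φ, W.U s ((S ^ n) e)⟫_ℂ)
            ⟪φ, (-Complex.I) • S (W.U t ((S ^ n) e))⟫_ℂ t := by
          have h3 := (((innerSL ℂ φ).restrictScalars ℝ).hasFDerivAt).comp_hasDerivAt t h1
          exact h3
        have h4 : HasDerivAt (fun s : ℝ => ⟪φ, W.U s ((S ^ n) e)⟫_ℂ) 0 t := by
          have : (fun s : ℝ => ⟪φ, W.U s ((S ^ n) e)⟫_ℂ) = fun _ => 0 := funext ih
          rw [this]
          exact hasDerivAt_const t 0
        have h5 := h2.unique h4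
        rw [inner_smul_right, mul_eq_zero] at h5
        have h6 := h5.resolve_left (neg_ne_zero.2 Complex.I_ne_zero)
        have h7 : S (W.U t ((S ^ n) e)) = W.U t ((S ^ (n + 1)) e) := by
          rw [Pool.Agent.Helper16.Cc.gen_unique hW t, pow_succ']
          have h8 : Commute S (NormedSpace.exp ((-Complex.I * (t : ℂ)) • S)) := by
            let +nondep : NormedAlgebra ℚ (L2 ι →L[ℂ] L2 ι) := .restrictScalars ℚ ℂ _
            exact ((Commute.refl S).smul_right _).exp_right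
          exact congrArg (fun A : L2 ι →L[ℂ] L2 ι => A ((S ^ n) e)) h8.eq
        rwa [h7] at h6
    intro n
    have h1 := key n 0
    rwa [W.zero'] at h1
  · intro h t
    rw [Pool.Agent.Helper16.Cc.gen_unique hW t]
    have h1 := NormedSpace.exp_series_hasSum_exp' (𝕂 := ℂ) ((-Complex.I * (t : ℂ)) • S)
    have h2 := h1.mapL (ContinuousLinearMap.apply ℂ (L2 ι) e)
    have h3 := h2.mapL (innerSL ℂ φ)
    refine h3.unique ?_
    have h4 : (fun b : ℕ => (innerSL ℂ φ) ((ContinuousLinearMap.apply ℂ (L2 ι) e)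
        ((b.factorial : ℂ)⁻¹ • ((-Complex.I * (t : ℂ)) • S) ^ b))) = fun _ => 0 := by
      funext b
      change ⟪φ, ((b.factorial : ℂ)⁻¹ • ((-Complex.I * (t : ℂ)) • S) ^ b) e⟫_ℂ = 0
      rw [_root_.smul_pow, _root_.smul_apply, _root_.smul_apply,
        inner_smul_right, inner_smul_right, h b, mul_zero, mul_zero]
    rw [h4]
    exact hasSum_zero

theorem cyc : S_Cyc := by
  intro ι T hT e U U' hU h f g hc hU'
  have hfc : Continuous f := continuous_iff_continuousAt.2 fun x => (hc.der x).continuousAt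
  have hhc : Continuous h := by
    obtain ⟨m, M, hm0, hg⟩ := hc.bd
    have h1 : LipschitzWith (Real.toNNReal (1 / m)) h := by
      refine LipschitzWith.of_dist_le_mul fun a b => ?_
      rw [Real.dist_eq, Real.dist_eq, Real.coe_toNNReal _ (by positivity)]
      have h2 : m * |h a - h b| ≤ |f (h a) - f (h b)| := by
        rcases lt_trichotomy (h a) (h b) with hab | hab | hab
        · obtain ⟨c, -, hc'⟩ := exists_hasDerivAt_eq_slope f g hab
            (fun x _ => (hc.der x).continuousAt.continuousWithinAt) (fun x _ => hc.der x)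
          have hba : 0 < h b - h a := sub_pos.2 hab
          have h1 : f (h b) - f (h a) = g c * (h b - h a) := by
            rw [hc']; field_simp
          rw [abs_sub_comm (h a) (h b), abs_sub_comm (f (h a)) (f (h b)), h1, abs_mul]
          exact mul_le_mul_of_nonneg_right (hg c).1 (abs_nonneg _)
        · rw [hab, sub_self, sub_self, abs_zero, mul_zero]
        · obtain ⟨c, -, hc'⟩ := exists_hasDerivAt_eq_slope f g hab
            (fun x _ => (hc.der x).continuousAt.continuousWithinAt) (fun x _ => hc.der x)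
          have hba : 0 < h a - h b := sub_pos.2 hab
          have h1 : f (h a) - f (h b) = g c * (h a - h b) := by
            rw [hc']; field_simp
          rw [h1, abs_mul]
          exact mul_le_mul_of_nonneg_right (hg c).1 (abs_nonneg _)
      rw [hc.hf, hc.hf] at h2
      rw [one_div, ← div_eq_inv_mul, le_div_iff₀ hm0, mul_comm]
      exact h2
    exact h1.continuous
  have hsa : ∀ κ, IsSelfAdjoint (pt T e κ) := fun κ => pt_sa T hT e κ
  have hS : ∀ κ, IsSelfAdjoint (fc h (pt T e κ)) := fun κ => fc_sa h _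
  have hback : ∀ κ, fc f (fc h (pt T e κ)) = pt T e κ := fun κ =>
    fc_back (hsa κ) hc.hf hhc hfc
  have hfirst : ∀ κ φ, φ ∈ Kc (U' κ) e ↔ φ ∈ NN T e := by
    intro κ φ
    rw [Kc_iff (hU' κ), ← NN_pt_iff hT κ]
    constructor
    · intro h1
      have h2 := NN_cfc (hS κ) h1 hfc
      rwa [hback] at h2
    · intro h1
      exact NN_cfc (hsa κ) h1 hhc
  have hzero : ∀ φ, φ ∈ Kc (U 0) e ↔ φ ∈ NN T e := by
    intro φ
    rw [Kc_iff (hU 0), NN_pt_iff hT 0]
  refine ⟨fun κ φ => by rw [hfirst, hzero], fun κ t φ hφ => ?_⟩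
  rw [hzero] at hφ
  -- the functions of the operators agree
  have hag : ∀ κ, ∀ x ∈ NN T e, fc h T x ∈ NN T e ∧ fc h (pt T e κ) x = fc h T x := fun κ =>
    cfc_agree (NN_closed T e) hT (hsa κ) (fun y hy => ⟨NN_inv hT hy, pt_on hy κ⟩) hhc
  have hpow : ∀ κ, ∀ n : ℕ, ((fc h T) ^ n) φ ∈ NN T e ∧
      ((fc h (pt T e κ)) ^ n) φ = ((fc h T) ^ n) φ := by
    intro κ n
    induction n with
    | zero => exact ⟨hφ, rfl⟩
    | succ n ih =>
      rw [pow_succ', pow_succ']
      refine ⟨(hag κ _ ih.1).1, ?_⟩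
      change fc h (pt T e κ) (((fc h (pt T e κ)) ^ n) φ) = fc h T (((fc h T) ^ n) φ)
      rw [ih.2]
      exact (hag κ _ ih.1).2
  have hexp : ∀ κ, (U' κ).U t φ = NormedSpace.exp ((-Complex.I * (t : ℂ)) • (fc h T)) φ := by
    intro κ
    rw [Pool.Agent.Helper16.Cc.gen_unique (hU' κ) t]
    have h1 := (NormedSpace.exp_series_hasSum_exp' (𝕂 := ℂ)
      ((-Complex.I * (t : ℂ)) • (fc h (pt T e κ)))).mapL (ContinuousLinearMap.apply ℂ (L2 ι) φ)
    have h2 := (NormedSpace.exp_series_hasSum_exp' (𝕂 := ℂ)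
      ((-Complex.I * (t : ℂ)) • (fc h T))).mapL (ContinuousLinearMap.apply ℂ (L2 ι) φ)
    have h3 : (fun b : ℕ => (ContinuousLinearMap.apply ℂ (L2 ι) φ)
        ((b.factorial : ℂ)⁻¹ • ((-Complex.I * (t : ℂ)) • fc h (pt T e κ)) ^ b)) =
        fun b : ℕ => (ContinuousLinearMap.apply ℂ (L2 ι) φ)
          ((b.factorial : ℂ)⁻¹ • ((-Complex.I * (t : ℂ)) • fc h T) ^ b) := ?_
    · rw [h3] at h1
      exact h1.unique h2
    funext b
    change ((b.factorial : ℂ)⁻¹ • ((-Complex.I * (t : ℂ)) • fc h (pt T e κ)) ^ b) φ =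
      ((b.factorial : ℂ)⁻¹ • ((-Complex.I * (t : ℂ)) • fc h T) ^ b) φ
    rw [_root_.smul_pow, _root_.smul_pow, _root_.smul_apply, _root_.smul_apply,
      _root_.smul_apply, _root_.smul_apply, (hpow κ b).2]
  rw [hexp κ, hexp 0]

end Pool.Agent.Helper88.Cc
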